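import Pool.Agent.X308.S.EvenMain

/-!
# Murre's conjecture (D) and Bloch's conjecture for varieties dominated by surfaces

`𝒱` is a class of smooth projective geometrically irreducible varieties over the field `k` closed
under products (for the problem: all smooth projective varieties over `k = ℂ`), `C` the Chow groups
with rational coefficients (in the form of their formal properties, `IsChowProj`), `H` a Weil
cohomology theory (`IsWeilProj`), and `SurfaceProperties H` records two known facts: homologically
trivial divisors on a product `X × Y` are sums of pull-backs of divisors from `X` and from `Y` (with
rational coefficients), and every surface has a Chow-Kunneth decomposition as constructed by Murre.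

Let `X` be a variety of any dimension `d` whose motive is a direct summand of a finite sum of twists
of motives of surfaces (`throughSurfaces`), and whose cohomology in even degrees is spanned by
classes of cycles (`EvenAlgebraic`). For example `X` is a surface with `p_g = 0`, or dominated by
products of such surfaces with projective spaces, or a uniruled threefold with `h^{2,0} = 0`.

Theorem. The following conditions are equivalent:
(1) Murre's conjecture (D) for `X` and all its Chow-Kunneth decompositions;
(2) Murre's conjecture (C) for `X`;
(3) Murre's conjecture (B) for `X` and all its Chow-Kunneth decompositions;
(4) homologically trivial idempotent correspondences act as zero on the Chow groups of `X`;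
(5) homologically trivial cycles on `X` are detected by curves (`CurvesDetect`): a homologically
trivial `x ∈ CH^l(X)` is zero if `Γ_* x = 0` in `Pic(T)` for all curves `T` and all
`Γ ∈ CH^(d+1-l)(X × T)`.

For a surface with `p_g = 0` condition (5) is Bloch's conjecture (the Albanese kernel is zero). So a
proof of Murre's conjecture (D) for a surface with `p_g = 0` and all its Chow-Kunneth decompositions
is a proof of Bloch's conjecture for this surface; Murre's theorem gives (D) for one decomposition.
-/

set_option autoImplicit false

open CategoryTheory AlgebraicGeometry

universe u v w

namespace Pool.Agent.Results.MP_583472_ag.AlgebraicEvenCohomology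

open Pool.Agent.H914 Pool.Agent.W492.BB Pool.Agent.W550.Corr Pool.Agent.TH133
  Pool.Agent.X308.S

/-- For a variety whose motive is a direct summand of a sum of twists of motives of surfaces, with
algebraic even cohomology, Murre's conjectures (D), (C), (B) are equivalent to each other, to the
vanishing of the action of homologically trivial idempotents, and to the injectivity of the maps to
the Picard groups of curves on homologically trivial cycles. -/
theorem result {k : Type u} [Field k] {𝒱 : VarClass k} (C : TheoryData.{u, v, 0} 𝒱 ℚ)
    [IsChowProj C] {K : Type w} [Field K] (H : WeilTheoryData.{u, v, w} C K) [IsWeilProj H]
    (hS : SurfaceProperties H) (X : 𝒱.Obj) (hX : dg C X ∈ throughSurfaces C X)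
    (hE : EvenAlgebraic H X) :
    List.TFAE [MurreD H X, MurreC H X, MurreB0 H X ∧ MurreB1 H X, PhantomsActTrivially H X,
      CurvesDetect H X] :=
  tfae_even hS hX hE

end Pool.Agent.Results.MP_583472_ag.AlgebraicEvenCohomology
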