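import Pool.Agent.X163.MU.Main

/-!
# Murre's conjecture (D) in a single codimension, for varieties with one good decomposition

`𝒱` is a class of smooth projective geometrically irreducible varieties over the field `k` closed
under products (for the problem: all smooth projective varieties over `k = ℂ`), `C` the Chow groups
with rational coefficients (in the form of their formal properties, `IsChowProj`) and `H` a Weil
cohomology theory (`IsWeilProj`). Fix a codimension `l`.

Let `X` be a variety which has one Chow-Kunneth decomposition `π` such that
`π_a ∘ γ ∘ π_b = 0` for `b < a` and all self-correspondences `γ` of degree zero (`NoRaising`), and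
such that (D) holds for this decomposition `π` and cycles of codimension `l`:
`F^1 CH^l(X) = ker (cl)`. Every surface has such a decomposition for all `l` (Murre; Kahn, Murre,
Pedrini).

Theorem. (1) The following are equivalent:
(i) the equality (D), `F^1 CH^l(X) = ker (cl)`, holds for all Chow-Kunneth decompositions of `X`;
(ii) the subgroup `F^1 CH^l(X)` is the same for all Chow-Kunneth decompositions of `X`;
(iii) all subgroups `F^n CH^l(X)` are the same for all Chow-Kunneth decompositions of `X`;
(iv) homologically trivial idempotent self-correspondences of degree zero of `X` act as zero on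
`CH^l(X)`.
(2) If `F^0 CH^l(X) = CH^l(X)` and `F^(l+1) CH^l(X) = 0` for the decomposition `π`, then these
conditions are equivalent to (B) in codimension `l` for all Chow-Kunneth decompositions of `X`.

So the question (D) can be treated one codimension at a time, and for each of them it only depends on
the action of single idempotents.
-/

set_option autoImplicit false

open CategoryTheory AlgebraicGeometry

universe u v w

namespace Pool.Agent.Results.MP_583472_ag.OneGoodDecomposition

open Pool.Agent.H914 Pool.Agent.W492.BB Pool.Agent.TH133 Pool.Agent.X308.S Pool.Agent.X163.MU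

/-- For a variety with one Chow-Kunneth decomposition without weight-raising endomorphisms which
satisfies (D) in codimension `l`, the conjecture (D) in codimension `l` for all Chow-Kunneth
decompositions is equivalent to the independence of `F^1 CH^l(X)`, or of all `F^n CH^l(X)`, from the
decomposition, and to the triviality of the action of homologically trivial idempotents on
`CH^l(X)`; and to (B) in codimension `l` if the given decomposition satisfies it. -/
theorem result {k : Type u} [Field k] {𝒱 : VarClass k} (C : TheoryData.{u, v, 0} 𝒱 ℚ)
    [IsChowProj C] {K : Type w} [Field K] (H : WeilTheoryData.{u, v, w} C K) [IsWeilProj H]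
    (X : 𝒱.Obj) (π : ℕ → C.A (X.prod X)) (hπ : IsCK H X π) (hT : NoRaising C π) (l : ℕ)
    (hD : ∀ x : C.A X, x ∈ ckFil C π l 1 ↔ C.Deg l x ∧ H.cl x = 0) :
    List.TFAE [MurreDAt H X l,
      ∀ ρ ρ', IsCK H X ρ → IsCK H X ρ' → ckFil C ρ l 1 = ckFil C ρ' l 1,
      MurreCAt H X l, PhantomsZeroOn H X l] ∧
    (ckFil C π l 0 = C.gr X l → ckFil C π l (l + 1) = ⊥ →
      (MurreDAt H X l ↔ MurreB0At H X l ∧ MurreB1At H X l) ∧
      (MurreDAt H X l ↔ MurreB1At H X l)) := by
  refine ⟨?_, fun hB0 hB1 => ?_⟩
  · tfae_have 1 → 2 := by
      intro h ρ ρ' hρ hρ'
      ext x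
      rw [h ρ hρ x, h ρ' hρ' x]
    tfae_have 2 → 1 := by
      intro h ρ hρ x
      rw [h ρ π hρ hπ]
      exact hD x
    tfae_have 1 → 4 := phantomsOn_of_D hπ hT hD
    tfae_have 4 → 3 := murreCAt_of_phantomsOn hπ hT
    tfae_have 3 → 2 := fun h ρ ρ' hρ hρ' => h ρ ρ' hρ hρ' 1
    tfae_finish
  · have h := tfae_murreOn hπ hT hB0 hB1 hD
    exact ⟨h.out 3 0, h.out 3 1⟩

end Pool.Agent.Results.MP_583472_ag.OneGoodDecomposition
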