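import Pool.Agent.X308.S.ProdD

/-!
# Murre's conjecture (D) for products of varieties dominated by surfaces

`𝒱` is a class of smooth projective geometrically irreducible varieties over the field `k` closed
under products (for the problem: all smooth projective varieties over `k = ℂ`), `C` the Chow groups
with rational coefficients (in the form of their formal properties, `IsChowProj`), and `H` a Weil
cohomology theory (`IsWeilProj`). Known facts which are used: `SurfaceProperties H` (homologically
trivial divisors on a product `X × Y` are sums of pull-backs of divisors from `X` and from `Y`, with
rational coefficients; every surface has a Chow-Kunneth decomposition as constructed by Murre) and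
`DivisorsNumerical H` (numerically trivial divisors on surfaces are homologically trivial).

Let `X` be a variety of any dimension whose motive is a direct summand of a finite sum of twists of
motives of surfaces (`throughSurfaces`). Then `X` has a Chow-Kunneth decomposition of pure weights
(`IsPureDec`): `h^w(X)` is a direct summand of a sum of motives `h^i(S)(-n)` with `i + 2 n = w`,
where the surfaces `S` are decomposed as by Murre.

Theorem. The following are equivalent:
(1) homologically trivial correspondences in `CH^2(S × S')` between surfaces are degenerate, that
    is, classes of cycles supported on `V × S' ∪ S × V'` for curves `V`, `V'`;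
(2) Murre's conjecture (D) holds for the products of Murre's decompositions of two surfaces;
(3) Murre's conjecture (D) holds for the product decomposition of `X × Y`, for all varieties `X` and
    `Y`, of any dimension, with Chow-Kunneth decompositions of pure weights.

So for products of two varieties of this kind (D) is a statement on cycles of codimension two on
products of two surfaces (which over `ℂ` is equivalent to Bloch's conjecture for correspondences
between surfaces, by the theorem of Bloch and Srinivas).
-/

set_option autoImplicit false

open CategoryTheory AlgebraicGeometry

universe u v w

namespace Pool.Agent.Results.MP_583472_ag.ProductsReduceToSurfaces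

open Pool.Agent.H914 Pool.Agent.H914.VarClass Pool.Agent.W492.BB Pool.Agent.W550.Corr
  Pool.Agent.TH133 Pool.Agent.X308.S

/-- Varieties whose motives are direct summands of sums of twists of motives of surfaces have
decompositions of pure weights, and Murre's conjecture (D) for the products of two such
decompositions is equivalent to: homologically trivial correspondences of codimension two between
surfaces are degenerate. -/
theorem result {k : Type u} [Field k] {𝒱 : VarClass k} (C : TheoryData.{u, v, 0} 𝒱 ℚ)
    [IsChowProj C] {K : Type w} [Field K] (H : WeilTheoryData.{u, v, w} C K) [IsWeilProj H]
    (hS : SurfaceProperties H) (hN : DivisorsNumerical H) :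
    (∀ X : 𝒱.Obj, dg C X ∈ throughSurfaces C X →
      ∃ π : ℕ → C.A (X.prod X), IsCK H X π ∧ IsPureDec H π) ∧
    List.TFAE [TrivialDegenerate H,
      ∀ (S S' : 𝒱.Obj) (π : ℕ → C.A (S.prod S)) (ρ : ℕ → C.A (S'.prod S')),
        IsMurreCK H S π → IsMurreCK H S' ρ → DFor H (prodDec C π ρ),
      ∀ (X Y : 𝒱.Obj) (π : ℕ → C.A (X.prod X)) (ρ : ℕ → C.A (Y.prod Y)),
        IsCK H X π → IsPureDec H π → IsCK H Y ρ → IsPureDec H ρ → DFor H (prodDec C π ρ)] := by
  refine ⟨fun X hX => ?_, tfae_D hS hN⟩
  obtain ⟨π, h1, -, h2⟩ := exists_selfDual_CK (H := H) hS hX
  exact ⟨π, h1, h2⟩

end Pool.Agent.Results.MP_583472_ag.ProductsReduceToSurfaces
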