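import Pool.Agent.X163.MU.Three

/-!
# Murre's conjecture (D) for one-cycles, and for threefolds

`𝒱` is a class of smooth projective geometrically irreducible varieties over the field `k` closed
under products (for example all of them), `C` the Chow groups with rational coefficients (in the
form of their formal properties, `IsChowProj`), `H` a Weil cohomology theory (`IsWeilProj`), and
`DivisorProperties H` records two known facts: homologically trivial divisors on a product `X × Y`
are sums of pull-backs of divisors from `X` and from `Y`, and a correspondence of degree zero which
acts as zero on `H^1` acts as zero on homologically trivial divisors (rational coefficients).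

Let `Y` be a variety of dimension `n` with a self-dual Chow-Kunneth decomposition `π` such that
`π 0` and `π 1` are of the form constructed by Murre for all varieties (`IsMurreType`).

Theorem.
(1) Let `n` be arbitrary, and suppose that `h^2(Y)` is a direct summand of a sum of motives of
surfaces (`ThroughDim C 2 (π 2)`). Then (D) holds for one-cycles.
(2) Let `n = 3`. Then (D) holds in all codimensions `i ≠ 2`. Suppose that `k` is such that the theorem
of Bloch and Srinivas holds for `Y` (`BlochSrinivas C Y`; for instance `k = ℂ`). Then (D) holds in all
codimensions if `F^4 CH^3(Y) = 0`, which is one of the vanishings in Murre's conjecture (B). So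
for threefolds (B) implies (D).
-/

set_option autoImplicit false

open CategoryTheory AlgebraicGeometry

universe u v w

namespace Pool.Agent.Results.MP_583472_ag.ThreefoldsBImpliesD

open Pool.Agent.H914 Pool.Agent.W492.BB Pool.Agent.TH133 Pool.Agent.X308.P Pool.Agent.X163.MU

/-- For one-cycles conjecture (D) holds if `h^2(Y)` is a direct summand of motives of surfaces; for
threefolds (D) holds in codimensions different from `2`, and in codimension `2` it follows from the
vanishing of `F^4 CH^3(Y)`. -/
theorem result {k : Type u} [Field k] {𝒱 : VarClass k} (C : TheoryData.{u, v, 0} 𝒱 ℚ)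
    [IsChowProj C] {K : Type w} [Field K] (H : WeilTheoryData.{u, v, w} C K) [IsWeilProj H]
    (hP : DivisorProperties H) (Y : 𝒱.Obj) (π : ℕ → C.A (Y.prod Y)) (hπ : IsMurreType H Y π) :
    (ThroughDim C 2 (π 2) → ∀ i : ℕ, i + 1 = Y.dim → IsKer H π i) ∧
    (Y.dim = 3 → (∀ i : ℕ, i ≠ 2 → IsKer H π i) ∧
      (BlochSrinivas C Y → IsZero π 3 4 → ∀ i : ℕ, IsKer H π i)) :=
  three_Dform hP hπ

end Pool.Agent.Results.MP_583472_ag.ThreefoldsBImpliesD
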